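import Pool.Agent.H62.EF.Defs

/-!
Module EF7 of the envy-free convex partition project: configurations.
-/

namespace Pool.Agent.H58.EF
open Finset Pool.Agent.H62.EF

theorem kap_nonneg {d : ℕ} (a b : Fin d → ℝ) : 0 ≤ kap a b := le_max_left _ _

theorem kap_self {d : ℕ} (a : Fin d → ℝ) : kap a a = 1 := by
  simp [kap]

theorem kap_zero {d : ℕ} (a b : Fin d → ℝ) (h : 1 ≤ dist a b) : kap a b = 0 := by
  unfold kap
  exact max_eq_left (by linarith)

theorem hgt_eq_sum {n d : ℕ} (u : Fin n → Fin d → ℝ) (i : Fin n) :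
    hgt u i = ∑ l ∈ univ.filter (fun l => l < i), kap (u i) (u l) := by
  unfold hgt
  rw [Finset.sum_filter]

/-- EF7. Configurations. -/
theorem EF7a {n d : ℕ} (u : Fin n → Fin d → ℝ) : Function.Injective (cfg u) := by
  intro i j hij
  by_contra hne
  wlog hlt : i < j generalizing i j with H
  · exact H hij.symm (fun h => hne h.symm) (lt_of_le_of_ne (not_lt.mp hlt) (fun h => hne h.symm))
  have h1 : u i = u j := congrArg Prod.fst hij
  have h2 : hgt u i = hgt u j := congrArg Prod.snd hij
  rw [hgt_eq_sum, hgt_eq_sum] at h2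
  have h3 : ∑ l ∈ univ.filter (fun l => l < i), kap (u i) (u l)
      = ∑ l ∈ univ.filter (fun l => l < i), kap (u j) (u l) := by rw [h1]
  rw [h3] at h2
  have hsub : insert i (univ.filter (fun l => l < i)) ⊆ univ.filter (fun l => l < j) := by
    intro l hl
    simp only [mem_insert, mem_filter, mem_univ, true_and] at hl ⊢
    rcases hl with h | h
    · rw [h]; exact hlt
    · exact h.trans hlt
  have h4 : ∑ l ∈ insert i (univ.filter (fun l => l < i)), kap (u j) (u l)
      ≤ ∑ l ∈ univ.filter (fun l => l < j), kap (u j) (u l) :=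
    Finset.sum_le_sum_of_subset_of_nonneg hsub (fun _ _ _ => kap_nonneg _ _)
  rw [Finset.sum_insert (by simp)] at h4
  have h5 : kap (u j) (u i) = 1 := by rw [h1]; exact kap_self _
  linarith

theorem EF7b {n d : ℕ} : Continuous (cfg : (Fin n → Fin d → ℝ) → Fin n → P d) := by
  unfold cfg
  refine continuous_pi fun i => ?_
  refine Continuous.prodMk (continuous_apply i) ?_
  unfold hgt
  refine continuous_finsetSum _ fun l _ => ?_
  by_cases h : l < i
  · simp only [h, if_true]
    unfold kap
    fun_prop
  · simp only [h, if_false]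
    exact continuous_const

theorem EF7c {n d : ℕ} (u : Fin n → Fin d → ℝ) (A : Finset (Fin n)) (h : Equiv.Perm (Fin n))
    (hA : Shuf h A) (hsep : ∀ i ∈ A, ∀ l ∉ A, 1 ≤ dist (u i) (u l)) :
    cfg (fun i => u (h.symm i)) = fun i => cfg u (h.symm i) := by
  funext i
  unfold cfg
  refine Prod.ext rfl ?_
  simp only
  unfold hgt
  rw [← Equiv.sum_comp h]
  refine Finset.sum_congr rfl fun l _ => ?_
  simp only [Equiv.symm_apply_apply]
  have hi : h (h.symm i) = i := h.apply_symm_apply i
  set k := h.symm i with hk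
  have key : kap (u k) (u l) ≠ 0 → (h l < i ↔ l < k) := by
    intro hne
    rw [← hi]
    have hmono : ∀ a b : Fin n, ((a ∈ A ∧ b ∈ A) ∨ (a ∉ A ∧ b ∉ A)) → (h a < h b ↔ a < b) := by
      intro a b hab
      rcases lt_trichotomy a b with hlt | heq | hgt
      · have : h a < h b := by
          rcases hab with ⟨ha, hb⟩ | ⟨ha, hb⟩
          · exact hA.1 a ha b hb hlt
          · exact hA.2 a ha b hb hlt
        exact ⟨fun _ => hlt, fun _ => this⟩
      · subst heq; simp
      · have : h b < h a := by
          rcases hab with ⟨ha, hb⟩ | ⟨ha, hb⟩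
          · exact hA.1 b hb a ha hgt
          · exact hA.2 b hb a ha hgt
        exact ⟨fun h' => absurd h' (not_lt.mpr this.le), fun h' => absurd h' (not_lt.mpr hgt.le)⟩
    apply hmono
    by_contra hcon
    apply hne
    by_cases hkA : k ∈ A
    · have hlA : l ∉ A := fun hl => hcon (Or.inl ⟨hl, hkA⟩)
      exact kap_zero _ _ (hsep k hkA l hlA)
    · have hlA : l ∈ A := by
        by_contra hl
        exact hcon (Or.inr ⟨hl, hkA⟩)
      have := hsep l hlA k hkA
      rw [dist_comm] at this
      exact kap_zero _ _ this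
  by_cases hz : kap (u k) (u l) = 0
  · rw [hz]; simp
  · have := key hz
    by_cases h1 : l < k
    · rw [if_pos h1, if_pos (this.mpr h1)]
    · rw [if_neg h1, if_neg (fun h' => h1 (this.mp h'))]

end Pool.Agent.H58.EF
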